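import Mathlib

/-!
# Even forms of smooth simply connected 4-manifolds
-/

set_option autoImplicit false

namespace Pool.Agent.Q173.FM

/-- The set `E` of the pairs `(m, k)` such that the even form `2 m E₈ ⊕ k H` is realised by a smooth
closed simply connected 4-manifold (`2 |m|` copies of `-E₈` if `m < 0`), with its known
properties: connected sums, orientation reversal, `S² × S²`, the K3 surface and the inequality of
Furuta. -/
structure IsRealised (E : AddSubmonoid (ℤ × ℕ)) : Prop where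
  neg : ∀ m k, (m, k) ∈ E → (-m, k) ∈ E
  hyp : (0, 1) ∈ E
  k3 : (1, 3) ∈ E
  furuta : ∀ m k, (m, k) ∈ E → m ≠ 0 → 2 * m.natAbs + 1 ≤ k

/-- The least number `k` such that `2 m E₈ ⊕ k H` is realised. -/
noncomputable def thr (E : AddSubmonoid (ℤ × ℕ)) (m : ℕ) : ℕ := sInf {k | ((m : ℤ), k) ∈ E}

/-- The form is not a sum of two realised forms different from zero. -/
def Indecomposable (E : AddSubmonoid (ℤ × ℕ)) (x : ℤ × ℕ) : Prop :=
  x ∈ E ∧ x ≠ 0 ∧ ∀ y ∈ E, ∀ z ∈ E, x = y + z → y = 0 ∨ z = 0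

variable {E : AddSubmonoid (ℤ × ℕ)}

namespace IsRealised

variable (hE : IsRealised E)

include hE

lemma zero_mem (k : ℕ) : (0, k) ∈ E := by
  induction k with
  | zero => exact E.zero_mem
  | succ k ih => simpa using E.add_mem ih hE.hyp

lemma mono {m : ℤ} {k l : ℕ} (h : (m, k) ∈ E) (hkl : k ≤ l) : (m, l) ∈ E := by
  obtain ⟨d, rfl⟩ := Nat.exists_eq_add_of_le hkl
  simpa using E.add_mem h (hE.zero_mem d)

lemma three (m : ℕ) : ((m : ℤ), 3 * m) ∈ E := by
  induction m with
  | zero => exact E.zero_mem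
  | succ m ih =>
    have := E.add_mem ih hE.k3
    simp only [Prod.mk_add_mk] at this
    rw [show 3 * (m + 1) = 3 * m + 3 by ring]
    exact_mod_cast this

lemma thr_mem (m : ℕ) : ((m : ℤ), thr E m) ∈ E := Nat.sInf_mem (s := {k | ((m : ℤ), k) ∈ E}) ⟨_, hE.three m⟩

lemma thr_le_three (m : ℕ) : thr E m ≤ 3 * m := Nat.sInf_le (hE.three m)

lemma mem_iff (m : ℤ) (k : ℕ) : (m, k) ∈ E ↔ thr E m.natAbs ≤ k := by
  have key : ((m.natAbs : ℤ), k) ∈ E ↔ (m, k) ∈ E := by
    rcases Int.natAbs_eq m with h | h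
    · rw [← h]
    · constructor
      · intro h1
        have := hE.neg _ _ h1
        rwa [← h] at this
      · intro h1
        have := hE.neg _ _ h1
        have h2 : -m = (m.natAbs : ℤ) := by omega
        rwa [h2] at this
  rw [← key]
  constructor
  · intro h
    exact Nat.sInf_le h
  · intro h
    exact hE.mono (hE.thr_mem _) h

lemma thr_zero : thr E 0 = 0 := by
  have := hE.thr_le_three 0
  omega

lemma thr_add (m n : ℕ) : thr E (m + n) ≤ thr E m + thr E n := by
  refine Nat.sInf_le ?_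
  have := E.add_mem (hE.thr_mem m) (hE.thr_mem n)
  simp only [Prod.mk_add_mk] at this
  show (((m + n : ℕ) : ℤ), _) ∈ E
  push_cast
  exact this

lemma thr_mul (r m : ℕ) : thr E (r * m) ≤ r * thr E m := by
  induction r with
  | zero => simp [hE.thr_zero]
  | succ r ih =>
    rw [Nat.succ_mul, Nat.succ_mul]
    exact (hE.thr_add _ _).trans (Nat.add_le_add_right ih _)

lemma furuta' {m : ℕ} (hm : m ≠ 0) : 2 * m + 1 ≤ thr E m := by
  have := hE.furuta m _ (hE.thr_mem m) (by exact_mod_cast hm)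
  simpa using this

lemma thr_one : thr E 1 = 3 := by
  have h1 := hE.furuta' one_ne_zero
  have h2 := hE.thr_le_three 1
  omega

/-- A failure of the 11/8 inequality spreads. -/
lemma spread {m₀ : ℕ} (h : thr E m₀ < 3 * m₀) (m : ℕ) : thr E m + m / m₀ ≤ 3 * m := by
  have h1 : thr E (m / m₀ * m₀ + m % m₀) ≤ m / m₀ * thr E m₀ + 3 * (m % m₀) :=
    (hE.thr_add _ _).trans (Nat.add_le_add (hE.thr_mul _ _) (hE.thr_le_three _))
  have h2 : m / m₀ * m₀ + m % m₀ = m := by
    rw [mul_comm]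
    exact Nat.div_add_mod m m₀
  rw [h2] at h1
  have h3 : m / m₀ * thr E m₀ + m / m₀ ≤ m / m₀ * (3 * m₀) := by
    calc m / m₀ * thr E m₀ + m / m₀ = m / m₀ * (thr E m₀ + 1) := by ring
      _ ≤ _ := Nat.mul_le_mul_left _ h
  have h4 : 3 * m = m / m₀ * (3 * m₀) + 3 * (m % m₀) := by
    calc 3 * m = 3 * (m / m₀ * m₀ + m % m₀) := by rw [h2]
      _ = _ := by ring
  omega

end IsRealised

end Pool.Agent.Q173.FM
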