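import Pool.Agent.Q173.FM.Core

/-!
# The 11/8 inequality and finite generation
-/

set_option autoImplicit false

namespace Pool.Agent.Q173.FM

variable {E : AddSubmonoid (ℤ × ℕ)}

namespace IsRealised

variable (hE : IsRealised E)

include hE

lemma pos_of_ne {x : ℤ × ℕ} (hx : x ∈ E) (h0 : x ≠ 0) : 1 ≤ x.2 := by
  obtain ⟨m, k⟩ := x
  by_cases hm : m = 0
  · subst hm
    rcases Nat.eq_zero_or_pos k with rfl | hk
    · exact absurd rfl h0
    · exact hk
  · have := hE.furuta m k hx hm
    show 1 ≤ k
    omega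

/-- The 11/8 inequality. -/
theorem eleven_eighths : List.TFAE [
    ∀ m, thr E m = 3 * m,
    ∀ ε : ℝ, 0 < ε → ∃ M : ℕ, ∀ m, M ≤ m → (3 - ε) * m ≤ thr E m,
    ∀ M : ℕ, ∃ m, M ≤ m ∧ 3 * m ≤ thr E m,
    E = AddSubmonoid.closure {(0, 1), (1, 3), (-1, 3)}] := by
  tfae_have 1 → 2 := by
    intro h ε hε
    refine ⟨0, fun m _ => ?_⟩
    rw [h m]
    push_cast
    have : (0 : ℝ) ≤ m := Nat.cast_nonneg _
    nlinarith
  tfae_have 2 → 1 := by
    intro h m₀
    by_contra hne
    have hlt : thr E m₀ < 3 * m₀ := lt_of_le_of_ne (hE.thr_le_three m₀) hne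
    have hm0 : 1 ≤ m₀ := by omega
    have hm0R : (0 : ℝ) < m₀ := by exact_mod_cast hm0
    obtain ⟨M, hM⟩ := h (1 / (2 * m₀)) (by positivity)
    have h1 := hM ((M + 1) * m₀) (by nlinarith)
    have h2 := hE.thr_mul (M + 1) m₀
    have h3 : (thr E ((M + 1) * m₀) : ℝ) ≤ (M + 1) * (3 * m₀ - 1) := by
      have h4 : (thr E m₀ : ℝ) + 1 ≤ 3 * m₀ := by exact_mod_cast hlt
      calc (thr E ((M + 1) * m₀) : ℝ) ≤ ((M + 1) * thr E m₀ : ℕ) := by exact_mod_cast h2
        _ = (M + 1) * (thr E m₀ : ℝ) := by push_cast; ring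
        _ ≤ (M + 1) * (3 * m₀ - 1) := mul_le_mul_of_nonneg_left (by linarith) (by positivity)
    have h4 : (3 - 1 / (2 * (m₀ : ℝ))) * (((M + 1) * m₀ : ℕ) : ℝ) =
        (M + 1) * (3 * m₀ - 1 / 2) := by
      push_cast
      field_simp
    rw [h4] at h1
    have h5 : (0 : ℝ) < (M : ℝ) + 1 := by positivity
    nlinarith
  tfae_have 1 → 3 := fun h M => ⟨M, le_rfl, (h M).ge⟩
  tfae_have 3 → 1 := by
    intro h m₀
    by_contra hne
    have hlt : thr E m₀ < 3 * m₀ := lt_of_le_of_ne (hE.thr_le_three m₀) hne
    obtain ⟨m, hm, hm'⟩ := h m₀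
    have h1 := hE.spread hlt m
    have h2 : 1 ≤ m / m₀ := (Nat.one_le_div_iff (by omega)).2 hm
    omega
  tfae_have 1 → 4 := by
    intro h
    apply le_antisymm
    · rintro ⟨m, k⟩ hmk
      have h1 := (hE.mem_iff m k).1 hmk
      rw [h] at h1
      obtain ⟨d, rfl⟩ := Nat.exists_eq_add_of_le h1
      have h2 : ((0 : ℤ), d) ∈ AddSubmonoid.closure ({(0, 1), (1, 3), (-1, 3)} : Set (ℤ × ℕ)) := by
        have := AddSubmonoid.nsmul_mem (AddSubmonoid.closure
          ({(0, 1), (1, 3), (-1, 3)} : Set (ℤ × ℕ)))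
          (AddSubmonoid.subset_closure (by simp : ((0 : ℤ), 1) ∈ _)) d
        simpa using this
      have h3 : (m, 3 * m.natAbs) ∈ AddSubmonoid.closure
          ({(0, 1), (1, 3), (-1, 3)} : Set (ℤ × ℕ)) := by
        rcases Int.natAbs_eq m with hm | hm
        · have := AddSubmonoid.nsmul_mem (AddSubmonoid.closure
            ({(0, 1), (1, 3), (-1, 3)} : Set (ℤ × ℕ)))
            (AddSubmonoid.subset_closure (by simp : ((1 : ℤ), 3) ∈ _)) m.natAbs
          have e : m.natAbs • ((1 : ℤ), 3) = (m, 3 * m.natAbs) := by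
            simp only [Prod.smul_mk, smul_eq_mul, nsmul_eq_mul, mul_one]
            rw [← hm, mul_comm]
          rwa [e] at this
        · have := AddSubmonoid.nsmul_mem (AddSubmonoid.closure
            ({(0, 1), (1, 3), (-1, 3)} : Set (ℤ × ℕ)))
            (AddSubmonoid.subset_closure (by simp : ((-1 : ℤ), 3) ∈ _)) m.natAbs
          have e : m.natAbs • ((-1 : ℤ), 3) = (m, 3 * m.natAbs) := by
            simp only [Prod.smul_mk, smul_eq_mul, nsmul_eq_mul, mul_neg, mul_one]
            rw [← hm, mul_comm]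
          rwa [e] at this
      have := AddSubmonoid.add_mem _ h3 h2
      simpa using this
    · rw [AddSubmonoid.closure_le]
      rintro x (rfl | rfl | rfl)
      · exact hE.hyp
      · exact hE.k3
      · exact hE.neg _ _ hE.k3
  tfae_have 4 → 1 := by
    intro h m
    refine le_antisymm (hE.thr_le_three m) ?_
    have key : ∀ x ∈ E, 3 * x.1.natAbs ≤ x.2 := by
      intro x hx
      rw [h] at hx
      induction hx using AddSubmonoid.closure_induction with
      | mem x hx =>
        rcases hx with rfl | rfl | rfl <;> simp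
      | zero => simp
      | add x y _ _ h1 h2 =>
        have := Int.natAbs_add_le x.1 y.1
        simp only [Prod.fst_add, Prod.snd_add]
        omega
    simpa using key _ (hE.thr_mem m)
  tfae_finish

/-- Every realised form is a sum of indecomposable ones. -/
lemma closure_indecomposable : AddSubmonoid.closure {x | Indecomposable E x} = E := by
  apply le_antisymm
  · rw [AddSubmonoid.closure_le]
    exact fun x hx => hx.1
  · intro x hx
    obtain ⟨n, hn⟩ : ∃ n, x.2 = n := ⟨_, rfl⟩
    induction n using Nat.strong_induction_on generalizing x with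
    | _ n ih =>
      by_cases h0 : x = 0
      · rw [h0]
        exact AddSubmonoid.zero_mem _
      by_cases hi : Indecomposable E x
      · exact AddSubmonoid.subset_closure hi
      · unfold Indecomposable at hi
        push Not at hi
        obtain ⟨y, hy, z, hz, hxyz, hy0, hz0⟩ := hi hx h0
        have h1 := hE.pos_of_ne hy hy0
        have h2 := hE.pos_of_ne hz hz0
        have h3 : x.2 = y.2 + z.2 := by rw [hxyz]; rfl
        rw [hxyz]
        exact AddSubmonoid.add_mem _ (ih y.2 (by omega) hy rfl) (ih z.2 (by omega) hz rfl)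

/-- Finite generation. -/
theorem finite_generation : List.TFAE [
    E.FG,
    {x | Indecomposable E x}.Finite,
    ∃ m₀ : ℕ, 1 ≤ m₀ ∧ ∀ m, thr E m₀ * m ≤ thr E m * m₀,
    ∃ m₀ : ℕ, 1 ≤ m₀ ∧ ∃ N : ℕ, ∀ m, N ≤ m → thr E (m + m₀) = thr E m + thr E m₀] := by
  tfae_have 1 → 2 := by
    rintro ⟨G, hG⟩
    refine G.finite_toSet.subset fun x hx => ?_
    obtain ⟨hx1, hx2, hx3⟩ := hx
    have key : ∀ y ∈ AddSubmonoid.closure (G : Set (ℤ × ℕ)), y = 0 ∨
        ∃ g ∈ G, ∃ z ∈ E, y = g + z ∧ g ≠ 0 := by
      intro y hy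
      induction hy using AddSubmonoid.closure_induction with
      | mem y hy =>
        by_cases h0 : y = 0
        · exact Or.inl h0
        · exact Or.inr ⟨y, hy, 0, E.zero_mem, by simp, h0⟩
      | zero => exact Or.inl rfl
      | add y z hy hz h1 h2 =>
        rcases h1 with rfl | ⟨g, hg, w, hw, hyw, hg0⟩
        · simpa using h2
        · right
          refine ⟨g, hg, w + z, E.add_mem hw (hG ▸ hz), ?_, hg0⟩
          rw [hyw, add_assoc]
    rcases key x (hG.symm ▸ hx1) with h | ⟨g, hg, z, hz, hxg, hg0⟩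
    · exact absurd h hx2
    · rcases hx3 g (hG ▸ AddSubmonoid.subset_closure hg) z hz hxg with h | h
      · exact absurd h hg0
      · rw [hxg, h, add_zero]
        exact hg
  tfae_have 2 → 1 := by
    intro h
    refine ⟨h.toFinset, ?_⟩
    rw [h.coe_toFinset]
    exact hE.closure_indecomposable
  tfae_have 1 → 3 := by
    rintro ⟨G, hG⟩
    have hGE : ∀ g ∈ G, g ∈ E := fun g hg => hG ▸ AddSubmonoid.subset_closure hg
    -- a generator of minimal slope
    let G' := G.filter fun g => g.1 ≠ 0
    have hG' : G'.Nonempty := by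
      by_contra hcon
      rw [Finset.not_nonempty_iff_eq_empty] at hcon
      have key : ∀ y ∈ AddSubmonoid.closure (G : Set (ℤ × ℕ)), y.1 = 0 := by
        intro y hy
        induction hy using AddSubmonoid.closure_induction with
        | mem y hy =>
          by_contra h0
          have : y ∈ G' := Finset.mem_filter.2 ⟨hy, h0⟩
          rw [hcon] at this
          exact absurd this (Finset.notMem_empty y)
        | zero => rfl
        | add y z _ _ h1 h2 => rw [Prod.fst_add, h1, h2, add_zero]
      have := key (1, 3) (hG.symm ▸ hE.k3)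
      simp at this
    obtain ⟨g₀, hg₀, hmin⟩ := G'.exists_min_image
      (fun g => (thr E g.1.natAbs : ℚ) / g.1.natAbs) hG'
    have hg0 : 1 ≤ g₀.1.natAbs := by
      have := (Finset.mem_filter.1 hg₀).2
      omega
    refine ⟨g₀.1.natAbs, hg0, fun m => ?_⟩
    have hg0Q : (0 : ℚ) < g₀.1.natAbs := by exact_mod_cast hg0
    have key : ∀ y ∈ E, thr E g₀.1.natAbs * y.1.natAbs ≤ y.2 * g₀.1.natAbs := by
      intro y hy
      rw [← hG] at hy
      induction hy using AddSubmonoid.closure_induction with
      | mem y hy =>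
        by_cases h0 : y.1 = 0
        · simp [h0]
        · have h1 := hmin y (Finset.mem_filter.2 ⟨hy, h0⟩)
          have hy0 : (0 : ℚ) < y.1.natAbs := by
            have : 1 ≤ y.1.natAbs := by omega
            exact_mod_cast this
          rw [div_le_div_iff₀ hg0Q hy0] at h1
          have h2 : thr E g₀.1.natAbs * y.1.natAbs ≤ thr E y.1.natAbs * g₀.1.natAbs := by
            exact_mod_cast h1
          exact h2.trans (Nat.mul_le_mul_right _ ((hE.mem_iff y.1 y.2).1 (hGE y hy)))
      | zero => simp
      | add y z _ _ h1 h2 =>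
        have h3 := Int.natAbs_add_le y.1 z.1
        simp only [Prod.fst_add, Prod.snd_add]
        calc _ ≤ thr E g₀.1.natAbs * (y.1.natAbs + z.1.natAbs) := Nat.mul_le_mul_left _ h3
          _ ≤ _ := by rw [mul_add, add_mul]; exact Nat.add_le_add h1 h2
    simpa using key _ (hE.thr_mem m)
  tfae_have 3 → 4 := by
    rintro ⟨m₀, hm₀, h⟩
    refine ⟨m₀, hm₀, ?_⟩
    -- the defect is nonincreasing in each residue class
    let δ : ℕ → ℕ := fun m => thr E m * m₀ - thr E m₀ * m
    have hδ : ∀ m, δ m + thr E m₀ * m = thr E m * m₀ := fun m => Nat.sub_add_cancel (h m)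
    have hdec : ∀ m, δ (m + m₀) ≤ δ m := by
      intro m
      have h1 := hδ m
      have h2 := hδ (m + m₀)
      have h3 := Nat.mul_le_mul_right m₀ (hE.thr_add m m₀)
      rw [add_mul] at h3
      rw [mul_add] at h2
      omega
    have hstab : ∀ r : ℕ, ∃ N, ∀ j, N ≤ j → δ (r + j * m₀ + m₀) = δ (r + j * m₀) := by
      intro r
      have hanti : Antitone fun j : ℕ => δ (r + j * m₀) := by
        apply antitone_nat_of_succ_le
        intro j
        have := hdec (r + j * m₀)
        rwa [show r + (j + 1) * m₀ = r + j * m₀ + m₀ by ring]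
      obtain ⟨N, hN⟩ : ∃ N, ∀ j, δ (r + N * m₀) ≤ δ (r + j * m₀) := by
        have h1 := Nat.sInf_mem (s := Set.range fun j : ℕ => δ (r + j * m₀)) ⟨_, 0, rfl⟩
        obtain ⟨N, hN⟩ := h1
        exact ⟨N, fun j => hN.le.trans (Nat.sInf_le ⟨j, rfl⟩)⟩
      refine ⟨N, fun j hj => ?_⟩
      have h3 : δ (r + (j + 1) * m₀) = δ (r + j * m₀) := by
        apply le_antisymm
        · exact hanti (Nat.le_succ j)
        · exact le_trans (hanti hj) (hN (j + 1))
      rwa [show r + (j + 1) * m₀ = r + j * m₀ + m₀ by ring] at h3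
    choose N hN using hstab
    refine ⟨(∑ r ∈ Finset.range m₀, N r + 1) * m₀, fun m hm => ?_⟩
    have hr : m % m₀ < m₀ := Nat.mod_lt _ hm₀
    have h1 : N (m % m₀) ≤ ∑ r ∈ Finset.range m₀, N r :=
      Finset.single_le_sum (f := N) (fun _ _ => Nat.zero_le _) (Finset.mem_range.2 hr)
    have h2 : (∑ r ∈ Finset.range m₀, N r + 1) ≤ m / m₀ := (Nat.le_div_iff_mul_le hm₀).2 hm
    have h3 := hN (m % m₀) (m / m₀) (by omega)
    have h4 : m % m₀ + m / m₀ * m₀ = m := by
      rw [mul_comm]
      exact Nat.mod_add_div m m₀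
    rw [h4] at h3
    have h5 := hδ m
    have h6 := hδ (m + m₀)
    have h7 : thr E (m + m₀) * m₀ = (thr E m + thr E m₀) * m₀ := by
      rw [add_mul, ← h6, ← h5, h3]
      ring
    exact Nat.eq_of_mul_eq_mul_right hm₀ h7
  tfae_have 4 → 1 := by
    rintro ⟨m₀, hm₀, N, h⟩
    let G : Finset (ℤ × ℕ) := {(0, 1)} ∪
      ((Finset.range (N + m₀ + 1)).image fun m : ℕ => ((m : ℤ), thr E m)) ∪
      ((Finset.range (N + m₀ + 1)).image fun m : ℕ => (-(m : ℤ), thr E m))
    refine ⟨G, le_antisymm ?_ ?_⟩
    · rw [AddSubmonoid.closure_le]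
      intro x hx
      simp only [G, Finset.coe_union, Finset.coe_singleton, Finset.coe_image, Set.mem_union,
        Set.mem_singleton_iff, Set.mem_image, Finset.mem_coe] at hx
      rcases hx with (rfl | ⟨m, -, rfl⟩) | ⟨m, -, rfl⟩
      · exact hE.hyp
      · exact hE.thr_mem m
      · exact hE.neg _ _ (hE.thr_mem m)
    · have key : ∀ m : ℕ, ((m : ℤ), thr E m) ∈ AddSubmonoid.closure (G : Set (ℤ × ℕ)) ∧
          (-(m : ℤ), thr E m) ∈ AddSubmonoid.closure (G : Set (ℤ × ℕ)) := by
        intro m
        induction m using Nat.strong_induction_on with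
        | _ m ih =>
          by_cases hm : m < N + m₀ + 1
          · constructor
            · apply AddSubmonoid.subset_closure
              simp only [G, Finset.coe_union, Finset.coe_singleton, Finset.coe_image,
                Set.mem_union, Set.mem_singleton_iff, Set.mem_image, Finset.mem_coe]
              exact Or.inl (Or.inr ⟨m, Finset.mem_range.2 hm, rfl⟩)
            · apply AddSubmonoid.subset_closure
              simp only [G, Finset.coe_union, Finset.coe_singleton, Finset.coe_image,
                Set.mem_union, Set.mem_singleton_iff, Set.mem_image, Finset.mem_coe]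
              exact Or.inr ⟨m, Finset.mem_range.2 hm, rfl⟩
          · obtain ⟨d, rfl⟩ : ∃ d, m = d + m₀ := ⟨m - m₀, by omega⟩
            have h1 := ih d (by omega)
            have h2 := ih m₀ (by omega)
            rw [h d (by omega)]
            constructor
            · have := AddSubmonoid.add_mem _ h1.1 h2.1
              simp only [Prod.mk_add_mk] at this
              push_cast
              exact this
            · have := AddSubmonoid.add_mem _ h1.2 h2.2
              simp only [Prod.mk_add_mk] at this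
              push_cast
              rw [neg_add]
              exact this
      rintro ⟨m, k⟩ hmk
      have h1 := (hE.mem_iff m k).1 hmk
      obtain ⟨d, rfl⟩ := Nat.exists_eq_add_of_le h1
      have h2 : ((0 : ℤ), d) ∈ AddSubmonoid.closure (G : Set (ℤ × ℕ)) := by
        have h3 : ((0 : ℤ), 1) ∈ AddSubmonoid.closure (G : Set (ℤ × ℕ)) := by
          apply AddSubmonoid.subset_closure
          simp [G]
        have := AddSubmonoid.nsmul_mem _ h3 d
        simpa using this
      have h3 : (m, thr E m.natAbs) ∈ AddSubmonoid.closure (G : Set (ℤ × ℕ)) := by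
        rcases Int.natAbs_eq m with hm | hm
        · have := (key m.natAbs).1
          rwa [← hm] at this
        · have := (key m.natAbs).2
          rwa [← hm] at this
      have := AddSubmonoid.add_mem _ h3 h2
      simpa using this
  tfae_finish

end IsRealised

end Pool.Agent.Q173.FM
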